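import Pool.Agent.P.MP_d66c6d_pr.T.Iface

/-! Step EIL of the carpet project. -/

namespace Pool.Agent.P.MP_d66c6d_pr

open Set Metric Filter Topology

namespace EilA

theorem log_mul {F G : ℂ → ℂ} {K : Set ℂ} (hF : HasLog F K) (hG : HasLog G K) :
    HasLog (fun z => F z * G z) K := by
  obtain ⟨L, hL, hLe⟩ := hF
  obtain ⟨M, hM, hMe⟩ := hG
  exact ⟨fun z => L z + M z, hL.add hM, fun z hz => by
    rw [Complex.exp_add, hLe z hz, hMe z hz]⟩

theorem log_congr {F G : ℂ → ℂ} {K : Set ℂ} (hF : HasLog F K) (h : ∀ z ∈ K, F z = G z) :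
    HasLog G K := by
  obtain ⟨L, hL, hLe⟩ := hF
  exact ⟨L, hL, fun z hz => by rw [hLe z hz, h z hz]⟩

theorem log_mono {F : ℂ → ℂ} {K K' : Set ℂ} (hF : HasLog F K) (h : K' ⊆ K) : HasLog F K' := by
  obtain ⟨L, hL, hLe⟩ := hF
  exact ⟨L, hL.mono h, fun z hz => hLe z (h hz)⟩

theorem log_ne {F : ℂ → ℂ} {K : Set ℂ} (hF : HasLog F K) {z : ℂ} (hz : z ∈ K) : F z ≠ 0 := by
  obtain ⟨L, -, hLe⟩ := hF
  rw [← hLe z hz]
  exact Complex.exp_ne_zero _

theorem log_inv {F : ℂ → ℂ} {K : Set ℂ} (hF : HasLog F K) : HasLog (fun z => (F z)⁻¹) K := by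
  obtain ⟨L, hL, hLe⟩ := hF
  exact ⟨fun z => -L z, hL.neg, fun z hz => by rw [Complex.exp_neg, hLe z hz]⟩

theorem log_one (K : Set ℂ) : HasLog (fun _ => 1) K :=
  ⟨fun _ => 0, continuousOn_const, fun _ _ => Complex.exp_zero⟩

theorem near (hLOGA : S_LOGA) {K : Set ℂ} {x y : ℂ} (h : ∀ z ∈ K, ‖y - x‖ < ‖z - y‖) :
    HasLog (fun z => (z - x) / (z - y)) K := by
  have hne : ∀ z ∈ K, z - y ≠ 0 := fun z hz h0 => by
    have h1 := h z hz
    rw [h0, norm_zero] at h1
    exact absurd h1 (not_lt.2 (norm_nonneg _))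
  refine hLOGA.2.2.1 K (fun _ => 1) _ (log_one K) ?_ ?_
  · exact ContinuousOn.div (by fun_prop) (by fun_prop) hne
  · intro z hz
    have h1 : (z - x) / (z - y) - 1 = (y - x) / (z - y) := by
      field_simp [hne z hz]
      ring
    rw [h1, norm_div, norm_one, div_lt_one (norm_pos_iff.2 (hne z hz))]
    exact h z hz

theorem move (hLOGA : S_LOGA) {K : Set ℂ} (hK : IsClosed K) {a b : ℂ}
    (hb : b ∈ connectedComponentIn Kᶜ a) : HasLog (fun z => (z - a) / (z - b)) K := by
  have ha : a ∈ Kᶜ := connectedComponentIn_nonempty_iff.1 ⟨b, hb⟩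
  refine (isPreconnected_connectedComponentIn (F := Kᶜ) (x := a)).induction₂'
    (fun x y => HasLog (fun z => (z - x) / (z - y)) K) ?_ ?_
    (mem_connectedComponentIn ha) hb
  · intro x hx
    have hxK : x ∈ Kᶜ := connectedComponentIn_subset _ _ hx
    obtain ⟨r, hr, hball⟩ := Metric.isOpen_iff.1 hK.isOpen_compl x hxK
    have hfar : ∀ z ∈ K, r ≤ ‖z - x‖ := fun z hz => by
      by_contra hlt
      exact hball (by rw [mem_ball, dist_eq_norm]; exact not_le.1 hlt) hz
    refine mem_nhdsWithin_of_mem_nhds ?_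
    filter_upwards [ball_mem_nhds x (half_pos hr)] with y hy
    rw [mem_ball, dist_eq_norm] at hy
    refine ⟨near hLOGA fun z hz => ?_, near hLOGA fun z hz => ?_⟩
    · have h1 := hfar z hz
      have h2 : ‖z - x‖ ≤ ‖z - y‖ + ‖y - x‖ := by
        have := norm_add_le (z - y) (y - x)
        rwa [sub_add_sub_cancel] at this
      linarith
    · have h1 := hfar z hz
      rw [norm_sub_rev]
      linarith
  · refine fun x y w _ _ _ h1 h2 => log_congr (log_mul h1 h2) fun z hz => ?_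
    have h3 : z - y ≠ 0 := fun h0 => log_ne h2 hz (by simp [h0])
    field_simp

theorem closure_sub {K : Set ℂ} (hK : IsClosed K) (a : ℂ) :
    closure (connectedComponentIn Kᶜ a) ⊆ connectedComponentIn Kᶜ a ∪ K := by
  intro z hz
  by_cases hzK : z ∈ K
  · exact Or.inr hzK
  · left
    have ho : IsOpen (connectedComponentIn Kᶜ z) := hK.isOpen_compl.connectedComponentIn
    obtain ⟨w, hw1, hw2⟩ := mem_closure_iff.1 hz _ ho (mem_connectedComponentIn hzK)
    rw [connectedComponentIn_eq hw2, ← connectedComponentIn_eq hw1]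
    exact mem_connectedComponentIn hzK

theorem core (hLOGA : S_LOGA) {K : Set ℂ} (hK : IsClosed K) {a : ℂ} (ha : a ∉ K)
    (hb : a ∈ fill K) {g : ℂ → ℂ} (hg : Continuous g)
    (hg0 : ∀ z ∈ closure (connectedComponentIn Kᶜ a), g z ≠ 0)
    (hL : HasLog (fun z => (z - a) / g z) K) : False := by
  classical
  obtain ⟨L, hL, hLe⟩ := hL
  obtain ⟨H, hH⟩ := ContinuousMap.exists_restrict_eq hK
    (⟨K.domRestrict L, continuousOn_iff_continuous_domRestrict.1 hL⟩ : C(K, ℂ))
  have hHL : ∀ z ∈ K, H z = L z := fun z hz =>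
    congrArg (fun f : C(K, ℂ) => f ⟨z, hz⟩) hH
  set N := connectedComponentIn Kᶜ a with hN
  have hNo : IsOpen N := hK.isOpen_compl.connectedComponentIn
  have haN : a ∈ N := mem_connectedComponentIn ha
  have hcont : Continuous fun z => if z ∈ closure N then Complex.exp (H z) * g z else z - a := by
    refine Continuous.if ?_ (by fun_prop) (by fun_prop)
    intro z hz
    have hz1 : z ∈ frontier N := frontier_closure_subset hz
    have hz2 : z ∈ closure N := frontier_subset_closure hz1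
    have hz3 : z ∈ K := by
      rcases closure_sub hK a hz2 with h | h
      · rw [hNo.frontier_eq] at hz1
        exact absurd h hz1.2
      · exact h
    rw [hHL z hz3, hLe z hz3]
    field_simp [hg0 z hz2]
  have hlog := hLOGA.1 _ hcont fun z => by
    by_cases hz : z ∈ closure N
    · rw [if_pos hz]
      exact mul_ne_zero (Complex.exp_ne_zero _) (hg0 z hz)
    · rw [if_neg hz]
      exact sub_ne_zero.2 fun h => hz (h ▸ subset_closure haN)
  have hbd : Bornology.IsBounded (closure N) := Bornology.IsBounded.closure hb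
  obtain ⟨R, hR, hsub⟩ := hbd.subset_ball_lt 0 a
  refine hLOGA.2.1 a R hR (log_congr (log_mono hlog (subset_univ _)) fun z hz => ?_)
  rw [if_neg fun h => (mem_ball.1 (hsub h)).ne (mem_sphere.1 hz)]

theorem back (hLOGA : S_LOGA) {K : Set ℂ} (hK : IsClosed K) {a b : ℂ} (ha : a ∉ K) (hb : b ∉ K)
    (hf : a ∈ fill K) (hL : HasLog (fun z => (z - a) / (z - b)) K) :
    b ∈ connectedComponentIn Kᶜ a := by
  by_contra hn
  refine core hLOGA hK ha hf (g := fun z => z - b) (by fun_prop) (fun z hz h0 => ?_) hL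
  have h1 : z = b := sub_eq_zero.1 h0
  rcases closure_sub hK a hz with h | h
  · exact hn (h1 ▸ h)
  · exact hb (h1 ▸ h)

theorem two (hLOGA : S_LOGA) (hFILL : S_FILL) (K : Set ℂ) (hK : IsCompact K) (a : ℂ) (ha : a ∉ K)
    (b : ℂ) (hb : b ∉ K) :
    b ∈ connectedComponentIn Kᶜ a ↔ HasLog (fun z => (z - a) / (z - b)) K := by
  refine ⟨move hLOGA hK.isClosed, fun hL => ?_⟩
  by_cases hfa : a ∈ fill K
  · exact back hLOGA hK.isClosed ha hb hfa hL
  · by_cases hfb : b ∈ fill K
    · have h1 : a ∈ connectedComponentIn Kᶜ b :=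
        back hLOGA hK.isClosed hb ha hfb (log_congr (log_inv hL) fun z _ => inv_div _ _)
      rw [← connectedComponentIn_eq h1]
      exact mem_connectedComponentIn hb
    · rw [(hFILL K hK).2.2.2.2.2.2.1 a hfa]
      exact hfb

theorem one (hLOGA : S_LOGA) (hFILL : S_FILL) (K : Set ℂ) (hK : IsCompact K) (a : ℂ)
    (ha : a ∉ K) : a ∉ fill K ↔ HasLog (fun z => z - a) K := by
  constructor
  · intro hf
    obtain ⟨R, hR, hsub⟩ := hK.isBounded.subset_ball_lt 0 0
    have hb : ((R : ℝ) : ℂ) ∉ ball (0 : ℂ) R := by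
      simp [abs_of_pos hR]
    have hbf : ((R : ℝ) : ℂ) ∉ fill K := fun h =>
      hb ((hFILL K hK).2.2.2.2.2.1 _ (convex_ball 0 R) hsub h)
    have h1 : ((R : ℝ) : ℂ) ∈ connectedComponentIn Kᶜ a := by
      rw [(hFILL K hK).2.2.2.2.2.2.1 a hf]
      exact hbf
    have h2 := move hLOGA hK.isClosed h1
    have h3 : HasLog (fun z => z - ((R : ℝ) : ℂ)) (ball 0 R) :=
      hLOGA.2.2.2.2.2 _ _ (convex_ball 0 R) (by fun_prop) fun z hz h0 =>
        hb (sub_eq_zero.1 h0 ▸ hz)
    refine log_congr (log_mul h2 (log_mono h3 hsub)) fun z hz => ?_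
    have h4 : z - ((R : ℝ) : ℂ) ≠ 0 := log_ne h3 (hsub hz)
    field_simp
  · intro hL hf
    exact core hLOGA hK.isClosed ha hf (g := fun _ => 1) continuous_const
      (fun _ _ => one_ne_zero) (log_congr hL fun z _ => (div_one _).symm)

theorem mem_comp {U : Set ℂ} {a b : ℂ} (h : JoinedIn U a b) : b ∈ connectedComponentIn U a := by
  obtain ⟨γ, hγ⟩ := h
  have h1 : IsPreconnected (range γ) := isPreconnected_range γ.continuous
  exact h1.subset_connectedComponentIn γ.source_mem_range (range_subset_iff.2 hγ)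
    γ.target_mem_range

end EilA

theorem p_EIL (hLOGA : S_LOGA) (hFILL : S_FILL) :
    S_EIL := by
  refine ⟨EilA.one hLOGA hFILL, EilA.two hLOGA hFILL, fun A B hA hB hAB a b h1 h2 => ?_⟩
  have hU := hA.union hB
  have ha : a ∉ A ∪ B := fun h => h.elim h1.source_mem h2.source_mem
  have hb : b ∉ A ∪ B := fun h => h.elim h1.target_mem h2.target_mem
  have h3 := hLOGA.2.2.2.2.1 A B _ hA.isClosed hB.isClosed hAB
    (EilA.move hLOGA hA.isClosed (EilA.mem_comp h1))
    (EilA.move hLOGA hB.isClosed (EilA.mem_comp h2))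
  have h4 := (EilA.two hLOGA hFILL _ hU a ha b hb).2 h3
  have ho : IsOpen (connectedComponentIn (A ∪ B)ᶜ a) :=
    hU.isClosed.isOpen_compl.connectedComponentIn
  have h5 : IsPathConnected (connectedComponentIn (A ∪ B)ᶜ a) :=
    ho.isConnected_iff_isPathConnected.1 (isConnected_connectedComponentIn_iff.2 ha)
  exact (h5.joinedIn a (mem_connectedComponentIn ha) b h4).mono
    (connectedComponentIn_subset _ _)

end Pool.Agent.P.MP_d66c6d_pr
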