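import Pool.Agent.P.MP_d66c6d_pr.T.Iface

/-! Step FILL of the carpet project. -/

namespace Pool.Agent.P.MP_d66c6d_pr

open Set Metric Filter Topology

namespace FillA

theorem ext_preconn {R : ℝ} (hR : 0 < R) : IsPreconnected {z : ℂ | R < ‖z‖} := by
  have h : {z : ℂ | R < ‖z‖} = Complex.exp '' {w : ℂ | Real.log R < w.re} := by
    ext z
    constructor
    · intro hz
      have hz' : R < ‖z‖ := hz
      have h0 : z ≠ 0 := norm_pos_iff.mp (hR.trans hz')
      refine ⟨Complex.log z, ?_, Complex.exp_log h0⟩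
      show Real.log R < (Complex.log z).re
      rw [Complex.log_re]
      exact Real.log_lt_log hR hz'
    · rintro ⟨w, hw, rfl⟩
      show R < ‖Complex.exp w‖
      rw [Complex.norm_exp]
      exact (Real.log_lt_iff_lt_exp hR).mp hw
  rw [h]
  exact (convex_halfSpace_re_gt (Real.log R)).isPreconnected.image _
    Complex.continuous_exp.continuousOn

theorem ext_unbdd (R : ℝ) : ¬ Bornology.IsBounded {z : ℂ | R < ‖z‖} := by
  intro h
  obtain ⟨C, hC⟩ := h.exists_norm_le
  have h1 : ((|R| + |C| + 1 : ℝ) : ℂ) ∈ {z : ℂ | R < ‖z‖} := by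
    show R < ‖((|R| + |C| + 1 : ℝ) : ℂ)‖
    rw [Complex.norm_real, Real.norm_eq_abs, abs_of_pos (by positivity)]
    linarith [le_abs_self R, abs_nonneg C]
  have h2 := hC _ h1
  rw [Complex.norm_real, Real.norm_eq_abs, abs_of_pos (by positivity)] at h2
  linarith [le_abs_self C, abs_nonneg R]

theorem mem_fill_iff {K : Set ℂ} {z : ℂ} :
    z ∈ fill K ↔ Bornology.IsBounded (connectedComponentIn Kᶜ z) := Iff.rfl

theorem comp_subset_fill {K : Set ℂ} {z : ℂ} (hz : z ∈ fill K) :
    connectedComponentIn Kᶜ z ⊆ fill K := fun w hw => by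
  rw [mem_fill_iff, ← connectedComponentIn_eq hw]
  exact hz

theorem comp_subset_compl {K : Set ℂ} {z : ℂ} (hz : z ∉ fill K) :
    connectedComponentIn Kᶜ z ⊆ (fill K)ᶜ := fun w hw hw' => by
  rw [mem_fill_iff, ← connectedComponentIn_eq hw] at hw'
  exact hz hw'

theorem notMem_of {K : Set ℂ} {z : ℂ} (hz : z ∉ fill K) : z ∈ Kᶜ := fun h => hz (subset_fill K h)

/-- A preconnected unbounded set outside `K` lies outside the filling. -/
theorem out_of_unbdd {K E : Set ℂ} (hE : IsPreconnected E) (hEK : E ⊆ Kᶜ)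
    (hb : ¬ Bornology.IsBounded E) : E ⊆ (fill K)ᶜ := fun z hz hz' =>
  hb (Bornology.IsBounded.subset (mem_fill_iff.mp hz') (hE.subset_connectedComponentIn hz hEK))

theorem comp_eq {K : Set ℂ} (hK : IsCompact K) {a : ℂ} (ha : a ∉ fill K) :
    connectedComponentIn Kᶜ a = (fill K)ᶜ := by
  obtain ⟨R, hR, hKR⟩ := hK.isBounded.exists_pos_norm_le
  have hEK : {z : ℂ | R < ‖z‖} ⊆ Kᶜ := fun z hz h => absurd (hKR z h) (not_le.mpr hz)
  have key : ∀ b ∉ fill K, {z : ℂ | R < ‖z‖} ⊆ connectedComponentIn Kᶜ b := by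
    intro b hb
    have : ∃ w ∈ connectedComponentIn Kᶜ b, R < ‖w‖ := by
      by_contra h
      push Not at h
      exact hb (isBounded_iff_forall_norm_le.mpr ⟨R, h⟩)
    obtain ⟨w, hw, hw'⟩ := this
    rw [connectedComponentIn_eq hw]
    exact (ext_preconn hR).subset_connectedComponentIn hw' hEK
  refine Subset.antisymm (comp_subset_compl ha) fun b hb => ?_
  obtain ⟨w, hw⟩ : {z : ℂ | R < ‖z‖}.Nonempty := by
    by_contra h
    rw [not_nonempty_iff_eq_empty] at h
    exact ext_unbdd R (h ▸ Bornology.isBounded_empty)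
  rw [connectedComponentIn_eq (key a ha hw), ← connectedComponentIn_eq (key b hb hw)]
  exact mem_connectedComponentIn (notMem_of hb)

theorem fill_bdd {K : Set ℂ} (hK : IsCompact K) : Bornology.IsBounded (fill K) := by
  obtain ⟨R, hR, hKR⟩ := hK.isBounded.exists_pos_norm_le
  have hEK : {z : ℂ | R < ‖z‖} ⊆ Kᶜ := fun z hz h => absurd (hKR z h) (not_le.mpr hz)
  refine isBounded_iff_forall_norm_le.mpr ⟨R, fun z hz => ?_⟩
  by_contra h
  exact out_of_unbdd (ext_preconn hR) hEK (ext_unbdd R) (not_le.mp h) hz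

theorem exists_out {K : Set ℂ} (hK : IsCompact K) : ∃ a, a ∉ fill K := by
  by_contra h
  push Not at h
  exact ext_unbdd 0 ((fill_bdd hK).subset fun z _ => h z)

theorem open_compl {K : Set ℂ} (hK : IsCompact K) : IsOpen (fill K)ᶜ := by
  obtain ⟨a, ha⟩ := exists_out hK
  rw [← comp_eq hK ha]
  exact hK.isClosed.isOpen_compl.connectedComponentIn

theorem preconn_compl {K : Set ℂ} (hK : IsCompact K) : IsPreconnected (fill K)ᶜ := by
  obtain ⟨a, ha⟩ := exists_out hK
  rw [← comp_eq hK ha]
  exact isPreconnected_connectedComponentIn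

theorem comp_subset_interior {K : Set ℂ} (hK : IsCompact K) {z : ℂ} (hz : z ∈ fill K) :
    connectedComponentIn Kᶜ z ⊆ interior (fill K) :=
  interior_maximal (comp_subset_fill hz) hK.isClosed.isOpen_compl.connectedComponentIn

/-- The closure of a component of the complement lies in the component together with `K`. -/
theorem closure_comp {K : Set ℂ} (hK : IsCompact K) (z : ℂ) :
    closure (connectedComponentIn Kᶜ z) ⊆ connectedComponentIn Kᶜ z ∪ K := by
  intro w hw
  by_cases hwK : w ∈ K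
  · exact Or.inr hwK
  · left
    have ho : IsOpen (connectedComponentIn Kᶜ w) := hK.isClosed.isOpen_compl.connectedComponentIn
    obtain ⟨v, hv1, hv2⟩ := mem_closure_iff.mp hw _ ho (mem_connectedComponentIn hwK)
    rw [connectedComponentIn_eq hv2, ← connectedComponentIn_eq hv1]
    exact mem_connectedComponentIn hwK

theorem closure_meets {K : Set ℂ} (hK : IsCompact K) {z : ℂ} (hz : z ∈ fill K) (hzK : z ∉ K) :
    (closure (connectedComponentIn Kᶜ z) ∩ K).Nonempty := by
  by_contra h
  have hc : IsClosed (connectedComponentIn Kᶜ z) := by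
    rw [← closure_subset_iff_isClosed]
    intro w hw
    exact (closure_comp hK z hw).resolve_right fun hwK => h ⟨w, hw, hwK⟩
  have ho : IsOpen (connectedComponentIn Kᶜ z) := hK.isClosed.isOpen_compl.connectedComponentIn
  have hu := IsClopen.eq_univ ⟨hc, ho⟩ ⟨z, mem_connectedComponentIn hzK⟩
  refine ext_unbdd 0 ((mem_fill_iff.mp hz).subset ?_)
  rw [hu]
  exact subset_univ _

theorem preconn_fill {K : Set ℂ} (hK : IsCompact K) (hc : IsPreconnected K) :
    IsPreconnected (fill K) := by
  rcases (fill K).eq_empty_or_nonempty with h | ⟨z₀, hz₀⟩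
  · rw [h]
    exact isPreconnected_empty
  obtain ⟨k, hk⟩ : K.Nonempty := by
    by_cases h : z₀ ∈ K
    · exact ⟨z₀, h⟩
    · obtain ⟨w, hw⟩ := closure_meets hK hz₀ h
      exact ⟨w, hw.2⟩
  refine isPreconnected_of_forall k fun z hz => ?_
  by_cases hzK : z ∈ K
  · exact ⟨K, subset_fill K, hk, hzK, hc⟩
  · obtain ⟨w, hw1, hw2⟩ := closure_meets hK hz hzK
    refine ⟨closure (connectedComponentIn Kᶜ z) ∪ K, ?_, Or.inr hk,
      Or.inl (subset_closure (mem_connectedComponentIn hzK)),
      IsPreconnected.union w hw1 hw2 isPreconnected_connectedComponentIn.closure hc⟩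
    refine union_subset ((closure_comp hK z).trans ?_) (subset_fill K)
    exact union_subset (comp_subset_fill hz) (subset_fill K)

theorem convex_fill {K C : Set ℂ} (hK : IsCompact K) (hC : Convex ℝ C) (hKC : K ⊆ C) :
    fill K ⊆ C := by
  intro z hz
  by_contra hzC
  have hzK : z ∉ K := fun h => hzC (hKC h)
  obtain ⟨k, -, hk⟩ := closure_meets hK hz hzK
  have hne : z - k ≠ 0 := sub_ne_zero.mpr fun h => hzK (h ▸ hk)
  have hpos : 0 < ‖z - k‖ := norm_pos_iff.mpr hne
  set E : Set ℂ := (fun t : ℝ => z + t • (z - k)) '' Ici 0 with hE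
  have hEp : IsPreconnected E := isPreconnected_Ici.image _ (by fun_prop)
  have hEK : E ⊆ Kᶜ := by
    rintro _ ⟨t, ht, rfl⟩ h
    have ht' : (0 : ℝ) ≤ t := ht
    have h1 : (0 : ℝ) < 1 + t := by linarith
    have := hC (hKC h) (hKC hk) (a := 1 / (1 + t)) (b := t / (1 + t)) (by positivity)
      (by positivity) (by field_simp)
    refine hzC ?_
    have e : (1 / (1 + t)) • (z + t • (z - k)) + (t / (1 + t)) • k = z := by
      have h2 : ((1 + t : ℝ) : ℂ) ≠ 0 := Complex.ofReal_ne_zero.mpr h1.ne'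
      simp only [Complex.real_smul]
      push_cast at h2 ⊢
      field_simp
      ring
    rwa [e] at this
  have hEb : ¬ Bornology.IsBounded E := by
    intro h
    obtain ⟨M, hM, hM'⟩ := h.exists_pos_norm_le
    have ht : (0 : ℝ) ≤ (M + ‖z‖ + 1) / ‖z - k‖ := by positivity
    have h1 := hM' _ ⟨(M + ‖z‖ + 1) / ‖z - k‖, ht, rfl⟩
    have h2 : ‖((M + ‖z‖ + 1) / ‖z - k‖) • (z - k)‖ = M + ‖z‖ + 1 := by
      rw [norm_smul, Real.norm_of_nonneg ht, div_mul_cancel₀ _ hpos.ne']
    have h3 := norm_sub_le (z + ((M + ‖z‖ + 1) / ‖z - k‖) • (z - k)) z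
    rw [add_sub_cancel_left, h2] at h3
    simp only at h1
    linarith
  exact out_of_unbdd hEp hEK hEb ⟨0, mem_Ici.mpr le_rfl, by simp⟩ hz

end FillA

open FillA in
theorem p_FILL :
    S_FILL := by
  intro K hK
  have hcl : IsClosed (fill K) := isOpen_compl_iff.mp (open_compl hK)
  refine ⟨isCompact_of_isClosed_isBounded hcl (fill_bdd hK), preconn_compl hK, ?_, ?_,
    preconn_fill hK, fun C hC hKC => convex_fill hK hC hKC, fun a ha => comp_eq hK ha, ?_, ?_⟩
  · refine Subset.antisymm (fun z hz => ?_) (subset_fill _)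
    by_contra h
    have hu : ¬ Bornology.IsBounded (fill K)ᶜ := by
      rw [← comp_eq hK h]
      exact h
    exact out_of_unbdd (preconn_compl hK) Subset.rfl hu h hz
  · intro z hz
    rw [hcl.frontier_eq] at hz
    by_contra h
    exact hz.2 (comp_subset_interior hK hz.1 (mem_connectedComponentIn h))
  · intro a ha b hb
    exact (((open_compl hK).isConnected_iff_isPathConnected).mp
      ⟨⟨a, ha⟩, preconn_compl hK⟩).joinedIn a ha b hb
  · intro C hC hd
    rcases C.eq_empty_or_nonempty with h | ⟨c, hc⟩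
    · left
      rw [h]
      exact empty_subset _
    have hsub : C ⊆ connectedComponentIn Kᶜ c :=
      hC.subset_connectedComponentIn hc hd.subset_compl_right
    by_cases h : c ∈ fill K
    · exact Or.inl (hsub.trans (comp_subset_interior hK h))
    · exact Or.inr (hsub.trans (comp_subset_compl h))

end Pool.Agent.P.MP_d66c6d_pr
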