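import Pool.Agent.P.MP_d66c6d_pr.T.Iface

/-! Step LOGA of the carpet project. -/

namespace Pool.Agent.P.MP_d66c6d_pr

open Set Metric Filter Topology

namespace LogaA

open Complex

theorem conv (C : Set ℂ) (F : ℂ → ℂ) (hC : Convex ℝ C) (hF : ContinuousOn F C)
    (h0 : ∀ z ∈ C, F z ≠ 0) : HasLog F C := by
  classical
  rcases C.eq_empty_or_nonempty with rfl | hne
  · exact ⟨fun _ => 0, continuousOn_empty _, fun z hz => hz.elim⟩
  have := hC.contractibleSpace hne
  have := hC.locallyPathConnectedSpace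
  obtain ⟨x, hx⟩ := hne
  obtain ⟨f, ⟨-, hf⟩, -⟩ := isCoveringMapOn_exp.existsUnique_continuousMap_lifts
    (⟨C.domRestrict F, continuousOn_iff_continuous_domRestrict.mp hF⟩ : C(C, ℂ)) (a₀ := ⟨x, hx⟩)
    (exp_log (h0 x hx)) (fun z => h0 z z.2)
  obtain ⟨g, hg⟩ : ∃ g : ℂ → ℂ, ∀ z : C, g z = f z :=
    ⟨fun z => if hz : z ∈ C then f ⟨z, hz⟩ else 0, by simp⟩
  refine ⟨g, ?_, fun z hz => ?_⟩
  · rw [continuousOn_iff_continuous_domRestrict, show C.domRestrict g = f from funext hg]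
    exact map_continuous f
  · rw [hg ⟨z, hz⟩]
    exact congrFun hf ⟨z, hz⟩

theorem const (K : Set ℂ) (L L' : ℂ → ℂ) (hK : IsPreconnected K) (h : ContinuousOn L K)
    (h' : ContinuousOn L' K) (e : ∀ z ∈ K, exp (L z) = exp (L' z)) :
    ∀ z ∈ K, ∀ w ∈ K, L z - L' z = L w - L' w := fun z hz w hw =>
  isCoveringMap_exp.constOn_of_comp (g := fun z => L z - L' z) hK (h.sub h') (fun a ha b hb => by
    have k : ∀ a ∈ K, exp (L a - L' a) = 1 := fun a ha => by
      rw [exp_sub, e a ha, div_self (exp_ne_zero _)]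
    exact Subtype.ext ((k a ha).trans (k b hb).symm)) hz hw

theorem circ (a : ℂ) (R : ℝ) (hR : 0 < R) : ¬ HasLog (fun z => z - a) (sphere a R) := by
  rintro ⟨L, hL, e⟩
  beta_reduce at e
  have hc : Continuous fun t : ℝ => L (circleMap a R t) :=
    hL.comp_continuous (continuous_circleMap a R) fun t => circleMap_mem_sphere a hR.le t
  have key := isCoveringMap_exp.const_of_comp (g := fun t : ℝ => L (circleMap a R t) - t * I)
    (hc.sub (by fun_prop)) (fun s t => by
      have h : ∀ t : ℝ, exp (L (circleMap a R t) - t * I) = R := fun t => by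
        rw [exp_sub, e _ (circleMap_mem_sphere a hR.le t), circleMap, add_sub_cancel_left,
          mul_div_assoc, div_self (exp_ne_zero _), mul_one]
      exact Subtype.ext ((h s).trans (h t).symm)) 0 (2 * Real.pi)
  have h2 : circleMap a R (2 * Real.pi) = circleMap a R 0 := by
    simpa using periodic_circleMap a R 0
  simp only [h2, ofReal_zero, zero_mul, sub_zero] at key
  have := congrArg Complex.im (sub_eq_self.1 key.symm)
  simp [Real.pi_ne_zero] at this

theorem near (K : Set ℂ) (F G : ℂ → ℂ) (h : HasLog F K) (hG : ContinuousOn G K)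
    (hn : ∀ z ∈ K, ‖G z - F z‖ < ‖F z‖) : HasLog G K := by
  obtain ⟨L, hL, e⟩ := h
  have hs : ∀ z ∈ K, G z / exp (L z) ∈ slitPlane := fun z hz => by
    have h0 : F z ≠ 0 := e z hz ▸ exp_ne_zero _
    rw [e z hz, show G z / F z = 1 + (G z - F z) / F z by field_simp; ring]
    refine mem_slitPlane_of_norm_lt_one ?_
    rw [norm_div, div_lt_one (norm_pos_iff.2 h0)]
    exact hn z hz
  refine ⟨fun z => L z + log (G z / exp (L z)),
    hL.add ((hG.div hL.cexp fun z _ => exp_ne_zero _).clog hs), fun z hz => ?_⟩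
  rw [exp_add, exp_log (slitPlane_ne_zero (hs z hz)), mul_div_cancel₀ _ (exp_ne_zero _)]

theorem glue (A B : Set ℂ) (F : ℂ → ℂ) (hA : IsClosed A) (hB : IsClosed B)
    (hc : IsPreconnected (A ∩ B)) (h : HasLog F A) (h' : HasLog F B) : HasLog F (A ∪ B) := by
  classical
  obtain ⟨L, hL, e⟩ := h
  obtain ⟨L', hL', e'⟩ := h'
  obtain ⟨c, c1, c2⟩ : ∃ c, exp c = 1 ∧ ∀ z ∈ A ∩ B, L z - L' z = c := by
    rcases (A ∩ B).eq_empty_or_nonempty with h | ⟨w, hw⟩
    · exact ⟨0, exp_zero, fun z hz => by rw [h] at hz; exact hz.elim⟩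
    · refine ⟨L w - L' w, ?_, fun z hz => const _ L L' hc (hL.mono inter_subset_left)
        (hL'.mono inter_subset_right) (fun z hz => (e z hz.1).trans (e' z hz.2).symm) z hz w hw⟩
      rw [exp_sub, e w hw.1, ← e' w hw.2, div_self (exp_ne_zero _)]
  have k : ∀ z ∈ B, A.piecewise L (fun z => L' z + c) z = L' z + c := fun z hz => by
    by_cases h : z ∈ A
    · rw [piecewise_eq_of_mem _ _ _ h, ← c2 z ⟨h, hz⟩, add_sub_cancel]
    · rw [piecewise_eq_of_notMem _ _ _ h]
  refine ⟨A.piecewise L fun z => L' z + c, ContinuousOn.union_of_isClosed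
    (hL.congr fun z hz => piecewise_eq_of_mem _ _ _ hz)
    ((hL'.add continuousOn_const).congr k) hA hB, ?_⟩
  rintro z (hz | hz)
  · rw [piecewise_eq_of_mem _ _ _ hz, e z hz]
  · rw [k z hz, exp_add, c1, mul_one, e' z hz]

end LogaA

theorem p_LOGA :
    S_LOGA :=
  ⟨fun F hF h => LogaA.conv _ F convex_univ hF.continuousOn fun z _ => h z, LogaA.circ, LogaA.near,
    LogaA.const, LogaA.glue, LogaA.conv⟩

end Pool.Agent.P.MP_d66c6d_pr
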