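import Pool.Agent.P.MP_d66c6d_pr.Defs

/-!
Planar topology: sets without holes, logarithms, conformal charts.
-/

namespace Pool.Agent.P.MP_d66c6d_pr

open Set Metric Filter Topology

/-- `U` contains the filling of each of its compact subsets. -/
def NoHole (U : Set ℂ) : Prop := ∀ K : Set ℂ, IsCompact K → K ⊆ U → fill K ⊆ U

/-- `F` has a continuous logarithm on `K`. -/
def HasLog (F : ℂ → ℂ) (K : Set ℂ) : Prop :=
  ∃ L : ℂ → ℂ, ContinuousOn L K ∧ ∀ z ∈ K, Complex.exp (L z) = F z

/-- `f` maps `D` conformally onto the unit disc and `g` is its inverse. -/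
structure Conf (D : Set ℂ) (f g : ℂ → ℂ) : Prop where
  op : IsOpen D
  diff : DifferentiableOn ℂ f D
  mf : Measurable f
  mg : Measurable g
  mapsf : MapsTo f D (ball 0 1)
  mapsg : MapsTo g (ball 0 1) D
  cg : ContinuousOn g (ball 0 1)
  left : ∀ x ∈ D, g (f x) = x
  right : ∀ w ∈ ball (0 : ℂ) 1, f (g w) = w

theorem Conf.inj {D : Set ℂ} {f g : ℂ → ℂ} (h : Conf D f g) : InjOn f D :=
  LeftInvOn.injOn h.left

theorem conf_id : Conf (ball 0 1) id id :=
  ⟨isOpen_ball, differentiableOn_id, measurable_id, measurable_id, mapsTo_id _, mapsTo_id _,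
    continuousOn_id, fun _ _ => rfl, fun _ _ => rfl⟩

theorem subset_fill (A : Set ℂ) : A ⊆ fill A := fun z hz => by
  have : connectedComponentIn Aᶜ z = ∅ := connectedComponentIn_eq_empty (not_not.2 hz)
  simp [fill, this]

theorem fill_mono {A B : Set ℂ} (h : A ⊆ B) : fill A ⊆ fill B := fun z hz =>
  show Bornology.IsBounded (connectedComponentIn Bᶜ z) from
    Bornology.IsBounded.subset (show Bornology.IsBounded (connectedComponentIn Aᶜ z) from hz)
      (connectedComponentIn_mono z (compl_subset_compl.2 h))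

end Pool.Agent.P.MP_d66c6d_pr
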