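import Pool.Agent.P.MP_d66c6d_pr.T.Defs

/-!
Statements of the planar topology chapter.
-/

namespace Pool.Agent.P.MP_d66c6d_pr

open Set Metric Filter Topology

-- deps:
/-- The filling of a compact set. -/
def S_FILL : Prop := ∀ K : Set ℂ, IsCompact K →
  IsCompact (fill K) ∧ IsPreconnected (fill K)ᶜ ∧ fill (fill K) = fill K ∧
  frontier (fill K) ⊆ K ∧ (IsPreconnected K → IsPreconnected (fill K)) ∧
  (∀ C : Set ℂ, Convex ℝ C → K ⊆ C → fill K ⊆ C) ∧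
  (∀ a ∉ fill K, connectedComponentIn Kᶜ a = (fill K)ᶜ) ∧
  (∀ a ∉ fill K, ∀ b ∉ fill K, JoinedIn (fill K)ᶜ a b) ∧
  ∀ C : Set ℂ, IsPreconnected C → Disjoint C K → C ⊆ interior (fill K) ∨ C ⊆ (fill K)ᶜ

-- deps:
/-- Elementary facts on logarithms. -/
def S_LOGA : Prop :=
  (∀ F : ℂ → ℂ, Continuous F → (∀ z, F z ≠ 0) → HasLog F univ) ∧
  (∀ (a : ℂ) (R : ℝ), 0 < R → ¬ HasLog (fun z => z - a) (sphere a R)) ∧
  (∀ (K : Set ℂ) (F G : ℂ → ℂ), HasLog F K → ContinuousOn G K →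
    (∀ z ∈ K, ‖G z - F z‖ < ‖F z‖) → HasLog G K) ∧
  (∀ (K : Set ℂ) (L L' : ℂ → ℂ), IsPreconnected K → ContinuousOn L K → ContinuousOn L' K →
    (∀ z ∈ K, Complex.exp (L z) = Complex.exp (L' z)) →
    ∀ z ∈ K, ∀ w ∈ K, L z - L' z = L w - L' w) ∧
  (∀ (A B : Set ℂ) (F : ℂ → ℂ), IsClosed A → IsClosed B → IsPreconnected (A ∩ B) →
    HasLog F A → HasLog F B → HasLog F (A ∪ B)) ∧
  ∀ (C : Set ℂ) (F : ℂ → ℂ), Convex ℝ C → ContinuousOn F C → (∀ z ∈ C, F z ≠ 0) → HasLog F C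

-- deps: LOGA FILL
/-- The criterion of Eilenberg and the theorem of Janiszewski. -/
def S_EIL : Prop :=
  (∀ K : Set ℂ, IsCompact K → ∀ a ∉ K, (a ∉ fill K ↔ HasLog (fun z => z - a) K)) ∧
  (∀ K : Set ℂ, IsCompact K → ∀ a ∉ K, ∀ b ∉ K,
    (b ∈ connectedComponentIn Kᶜ a ↔ HasLog (fun z => (z - a) / (z - b)) K)) ∧
  ∀ A B : Set ℂ, IsCompact A → IsCompact B → IsPreconnected (A ∩ B) → ∀ a b : ℂ,
    JoinedIn Aᶜ a b → JoinedIn Bᶜ a b → JoinedIn (A ∪ B)ᶜ a b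

-- deps: LOGA
/-- The plane is unicoherent. -/
def S_UNI : Prop := ∀ G H : Set ℂ, IsOpen G → IsOpen H → IsPreconnected G → IsPreconnected H →
  G ∪ H = univ → IsPreconnected (G ∩ H)

-- deps: LOGA EIL
/-- Logarithms on a domain without holes. -/
def S_LOGU : Prop := ∀ U : Set ℂ, IsOpen U → IsPreconnected U → NoHole U → ∀ a ∉ U,
  HasLog (fun z => z - a) U

-- deps: FILL UNI
-- imports: Pool.Agent.P.MP_56bcbf_an.Koebe
/-- Conformal images of domains without holes, and holes of unbounded connected closed sets. -/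
def S_IMG : Prop :=
  (∀ (U : Set ℂ) (F : ℂ → ℂ), IsOpen U → IsPreconnected U → NoHole U → DifferentiableOn ℂ F U →
    InjOn F U → NoHole (F '' U)) ∧
  ∀ C : Set ℂ, IsClosed C → IsPreconnected C → ¬ Bornology.IsBounded C → ∀ z : ℂ,
    NoHole (connectedComponentIn Cᶜ z)

-- deps: LOGU IMG
-- imports: Pool.Agent.P.MP_6c8efb_pr.SLE.LRm Pool.Agent.P.MP_6c8efb_pr.SLE.LRmt Pool.Agent.P.MP_6c8efb_pr.SLE.LMont
/-- The Riemann mapping theorem for domains without holes. -/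
def S_RMT : Prop := ∀ U : Set ℂ, IsOpen U → IsPreconnected U → NoHole U → U ≠ univ →
  ∀ z₀ ∈ U, ∃ f g : ℂ → ℂ, Conf U f g ∧ f z₀ = 0

end Pool.Agent.P.MP_d66c6d_pr
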