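import Pool.Agent.P.MP_d66c6d_pr.T.Iface
import Pool.Agent.P.MP_56bcbf_an.Koebe

/-! Step IMG of the carpet project. -/

namespace Pool.Agent.P.MP_d66c6d_pr

open Set Metric Filter Topology

namespace ImgA

theorem unb : ¬ Bornology.IsBounded (univ : Set ℂ) := fun h =>
  noncompact_univ ℂ (isCompact_of_isClosed_isBounded isClosed_univ h)

/-- A point of the filling is joined to the compact set inside the filling. -/
theorem link (hFILL : S_FILL) {K : Set ℂ} (hK : IsCompact K) {a : ℂ} (ha : a ∈ fill K) :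
    ∃ Z, IsPreconnected Z ∧ Z ⊆ fill K ∧ a ∈ Z ∧ ∃ k ∈ K, k ∈ Z := by
  by_cases h : a ∈ K
  · exact ⟨{a}, isPreconnected_singleton, singleton_subset_iff.2 ha, rfl, a, h, rfl⟩
  have m : a ∈ connectedComponentIn Kᶜ a := mem_connectedComponentIn h
  refine ⟨closure (connectedComponentIn Kᶜ a), isPreconnected_connectedComponentIn.closure,
    closure_minimal (fun b hb => ?_) (hFILL K hK).1.isClosed, subset_closure m, ?_⟩
  · show Bornology.IsBounded (connectedComponentIn Kᶜ b)
    rw [← connectedComponentIn_eq hb]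
    exact ha
  · by_contra c
    push Not at c
    have h1 : closure (connectedComponentIn Kᶜ a) ⊆ connectedComponentIn Kᶜ a :=
      isPreconnected_connectedComponentIn.closure.subset_connectedComponentIn (subset_closure m)
        fun b hb hb' => c b hb' hb
    rcases isClopen_iff.1 ⟨closure_subset_iff_isClosed.1 h1,
      hK.isClosed.isOpen_compl.connectedComponentIn⟩ with e | e
    · rw [e] at m
      exact m
    · exact unb (e ▸ ha)

end ImgA

open ImgA in
theorem p_IMG (hFILL : S_FILL) (hUNI : S_UNI) :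
    S_IMG := by
  refine ⟨fun U F hU hc hn hd hi K hK hKU => ?_, fun C hC hc hb z K hK hKD a ha => ?_⟩
  · have hW := MP_56bcbf_an.isOpen_image hU hd hi hU subset_rfl
    obtain ⟨g, g1, g2⟩ := MP_56bcbf_an.exists_inverse hU hd hi
    have k1 : IsCompact (g '' K) := hK.image_of_continuousOn (g1.continuousOn.mono hKU)
    have k2 : fill (g '' K) ⊆ U := hn _ k1 (by
      rintro _ ⟨k, hk, rfl⟩
      obtain ⟨u, hu, rfl⟩ := hKU hk
      rwa [g2 u hu])
    obtain ⟨f1, f2, -⟩ := hFILL _ k1
    have p1 : IsPreconnected (F '' (U ∩ (fill (g '' K))ᶜ)) :=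
      (hUNI _ _ hU f1.isClosed.isOpen_compl hc f2 (eq_univ_of_forall fun x =>
        (em (x ∈ fill (g '' K))).imp (fun h => k2 h) id)).image F
        (hd.continuousOn.mono inter_subset_left)
    have q1 : IsCompact (F '' fill (g '' K)) := f1.image_of_continuousOn (hd.continuousOn.mono k2)
    have q2 : F '' fill (g '' K) ⊆ F '' U := image_mono k2
    have q3 : ∀ x ∈ F '' U, x ∈ F '' (U ∩ (fill (g '' K))ᶜ) ∨ x ∈ F '' fill (g '' K) := by
      rintro _ ⟨u, hu, rfl⟩
      exact (em (u ∈ fill (g '' K))).elim (fun h => .inr ⟨u, h, rfl⟩) fun h => .inl ⟨u, ⟨hu, h⟩, rfl⟩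
    obtain ⟨r1, -, -, r2, -, -, -, -, r3⟩ := hFILL K hK
    rcases r3 _ p1 (disjoint_left.2 (by
      rintro _ ⟨u, ⟨hu, hu'⟩, rfl⟩ hk
      exact hu' (subset_fill _ ⟨_, hk, g2 u hu⟩))) with h | h
    · have e : interior (fill K) ∪ F '' U = fill K ∪ F '' fill (g '' K) := by
        refine Subset.antisymm (union_subset (interior_subset.trans subset_union_left) fun x hx =>
          (q3 x hx).imp (fun t => interior_subset (h t)) id) (union_subset (fun x hx => ?_)
          (q2.trans subset_union_right))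
        exact (em (x ∈ interior (fill K))).imp id fun t => hKU (r2 ⟨subset_closure hx, t⟩)
      rcases isClopen_iff.1 ⟨(r1.union q1).isClosed, e ▸ isOpen_interior.union hW⟩ with e' | e'
      · exact fun x hx => absurd (e' ▸ Or.inl hx : x ∈ (∅ : Set ℂ)) id
      · exact absurd (e' ▸ (r1.union q1).isBounded) unb
    · intro a ha
      by_contra c
      obtain ⟨Z, z1, z2, z3, k, hk, z4⟩ := link hFILL hK ha
      obtain ⟨x, x1, x2, x3⟩ := z1 _ _ hW q1.isClosed.isOpen_compl
        (fun x _ => (em (x ∈ F '' fill (g '' K))).imp (fun h => q2 h) id) ⟨k, z4, hKU hk⟩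
        ⟨a, z3, fun t => c (q2 t)⟩
      exact (q3 x x2).elim (fun t => h t (z2 x1)) x3
  · obtain ⟨r1, -, -, -, -, -, -, -, r3⟩ := hFILL K hK
    rcases r3 C hc (disjoint_left.2 fun x hx hk =>
      connectedComponentIn_subset _ _ (hKD hk) hx) with h | h
    · exact absurd (r1.isBounded.subset (h.trans interior_subset)) hb
    · obtain ⟨Z, z1, z2, z3, k, hk, z4⟩ := link hFILL hK ha
      rw [connectedComponentIn_eq (hKD hk)]
      exact z1.subset_connectedComponentIn z4 (fun x hx hx' => h hx' (z2 hx)) z3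

end Pool.Agent.P.MP_d66c6d_pr
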