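import Pool.Agent.P.MP_d66c6d_pr.T.Iface

/-! Step LOGU of the carpet project. -/

namespace Pool.Agent.P.MP_d66c6d_pr

open Set Metric Filter Topology

namespace LoguA

theorem nbhd {U : Set ℂ} (hU : IsOpen U) (hc : IsPreconnected U) {z₀ z : ℂ} (h0 : z₀ ∈ U)
    (hz : z ∈ U) : ∃ K : Set ℂ, (IsCompact K ∧ IsPreconnected K ∧ z₀ ∈ K ∧ K ⊆ U) ∧ K ∈ 𝓝 z := by
  obtain ⟨γ, hγ⟩ := (hU.isConnected_iff_isPathConnected.1 ⟨⟨z₀, h0⟩, hc⟩).joinedIn z₀ h0 z hz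
  obtain ⟨r, hr, hb⟩ := nhds_basis_closedBall.mem_iff.1 (hU.mem_nhds hz)
  refine ⟨range γ ∪ closedBall z r, ⟨(isCompact_range γ.continuous).union (isCompact_closedBall _ _),
    (isPreconnected_range γ.continuous).union z ⟨1, γ.target⟩ (mem_closedBall_self hr.le)
      (convex_closedBall z r).isPreconnected, Or.inl ⟨0, γ.source⟩, union_subset ?_ hb⟩,
    mem_of_superset (closedBall_mem_nhds z hr) subset_union_right⟩
  rintro _ ⟨t, rfl⟩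
  exact hγ t

end LoguA

theorem p_LOGU (hLOGA : S_LOGA) (hEIL : S_EIL) :
    S_LOGU := by
  intro U hU hc hH a ha
  rcases U.eq_empty_or_nonempty with rfl | ⟨z₀, h0⟩
  · exact ⟨0, continuousOn_empty _, fun z hz => hz.elim⟩
  have h1 : ∀ K : Set ℂ, IsCompact K ∧ IsPreconnected K ∧ z₀ ∈ K ∧ K ⊆ U →
      ∃ L : ℂ → ℂ, ContinuousOn L K ∧ (∀ z ∈ K, Complex.exp (L z) = z - a) ∧
        L z₀ = Complex.log (z₀ - a) := fun K ⟨k1, _, k3, k4⟩ => by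
    obtain ⟨L, l1, l2⟩ := (hEIL.1 K k1 a fun h => ha (k4 h)).1 fun h => ha (hH K k1 k4 h)
    have hne : z₀ - a ≠ 0 := sub_ne_zero.2 fun e => ha (e ▸ h0)
    refine ⟨fun z => L z - L z₀ + Complex.log (z₀ - a), (l1.sub continuousOn_const).add
      continuousOn_const, fun z hz => ?_, by simp⟩
    rw [Complex.exp_add, Complex.exp_sub, l2 z hz, l2 z₀ k3, Complex.exp_log hne,
      div_mul_cancel₀ _ hne]
  choose! L l1 l2 l3 using h1
  have h2 : ∀ K K' : Set ℂ, IsCompact K ∧ IsPreconnected K ∧ z₀ ∈ K ∧ K ⊆ U →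
      IsCompact K' ∧ IsPreconnected K' ∧ z₀ ∈ K' ∧ K' ⊆ U → K ⊆ K' → ∀ z ∈ K, L K z = L K' z :=
    fun K K' k k' s z hz => by
      have := hLOGA.2.2.2.1 K (L K) (L K') k.2.1 (l1 K k) ((l1 K' k').mono s)
        (fun z hz => by rw [l2 K k z hz, l2 K' k' z (s hz)]) z hz z₀ k.2.2.1
      rwa [l3 K k, l3 K' k', sub_self, sub_eq_zero] at this
  have h3 : ∀ K K' : Set ℂ, IsCompact K ∧ IsPreconnected K ∧ z₀ ∈ K ∧ K ⊆ U →
      IsCompact K' ∧ IsPreconnected K' ∧ z₀ ∈ K' ∧ K' ⊆ U → ∀ z ∈ K, z ∈ K' → L K z = L K' z :=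
    fun K K' k k' z hz hz' => by
      have k'' : IsCompact (K ∪ K') ∧ IsPreconnected (K ∪ K') ∧ z₀ ∈ K ∪ K' ∧ K ∪ K' ⊆ U :=
        ⟨k.1.union k'.1, k.2.1.union z₀ k.2.2.1 k'.2.2.1 k'.2.1, Or.inl k.2.2.1,
          union_subset k.2.2.2 k'.2.2.2⟩
      rw [h2 K _ k k'' subset_union_left z hz, h2 K' _ k' k'' subset_union_right z hz']
  choose! K k1 k2 using fun z (hz : z ∈ U) => LoguA.nbhd hU hc h0 hz
  refine ⟨fun z => L (K z) z, fun z hz => ContinuousAt.continuousWithinAt ?_,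
    fun z hz => l2 _ (k1 z hz) z (mem_of_mem_nhds (k2 z hz))⟩
  refine ((l1 _ (k1 z hz)).continuousAt (k2 z hz)).congr ?_
  filter_upwards [k2 z hz] with w hw
  have hw' := (k1 z hz).2.2.2 hw
  exact h3 _ _ (k1 z hz) (k1 w hw') w hw (mem_of_mem_nhds (k2 w hw'))

end Pool.Agent.P.MP_d66c6d_pr
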