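import Pool.Agent.P.MP_d66c6d_pr.T.Iface
import Pool.Agent.P.MP_6c8efb_pr.SLE.LRm
import Pool.Agent.P.MP_6c8efb_pr.SLE.LRmt
import Pool.Agent.P.MP_6c8efb_pr.SLE.LMont

/-! Step RMT of the carpet project. -/

namespace Pool.Agent.P.MP_d66c6d_pr

open Set Metric Filter Topology

namespace RmtA

open Complex Pool.Agent.P.MP_6c8efb_pr.SLE.L
open scoped ComplexConjugate

/-- Injective zero-free holomorphic functions on `U` have holomorphic square roots. -/
def HSq (U : Set ℂ) : Prop := ∀ F : ℂ → ℂ, DifferentiableOn ℂ F U → InjOn F U →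
  (∀ z ∈ U, F z ≠ 0) → ∃ r : ℂ → ℂ, DifferentiableOn ℂ r U ∧ ∀ z ∈ U, r z ^ 2 = F z

theorem holo_log {U : Set ℂ} (hU : IsOpen U) {F L : ℂ → ℂ} (hF : DifferentiableOn ℂ F U)
    (h0 : ∀ z ∈ U, F z ≠ 0) (hL : ContinuousOn L U) (he : ∀ z ∈ U, cexp (L z) = F z) :
    DifferentiableOn ℂ L U := by
  refine fun z hz => DifferentiableAt.differentiableWithinAt ?_
  have hn := hU.mem_nhds hz
  have h1 : DifferentiableAt ℂ (fun w => L z + log (F w / F z)) z := by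
    refine (differentiableAt_const _).add (DifferentiableAt.clog
      ((hF.differentiableAt hn).div_const _) ?_)
    simp [h0 z hz]
  refine h1.congr_of_eventuallyEq ?_
  have hc : ContinuousAt (fun w => (L w - L z).im) z := by
    have := hL.continuousAt hn
    fun_prop
  have : ∀ᶠ w in 𝓝 z, (L w - L z).im ∈ Ioo (-Real.pi) Real.pi :=
    hc.eventually_mem (Ioo_mem_nhds (by simpa using Real.pi_pos) (by simpa using Real.pi_pos))
  filter_upwards [this, hn] with w hw hwU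
  rw [← he w hwU, ← he z hz, ← exp_sub, log_exp hw.1 hw.2.le]
  ring

theorem hsq (hLOGU : S_LOGU) (hIMG : S_IMG) {U : Set ℂ} (hU : IsOpen U) (hc : IsPreconnected U)
    (hN : NoHole U) : HSq U := by
  intro F hF hi h0
  have hop : IsOpen (F '' U) := Pool.Agent.P.MP_56bcbf_an.isOpen_image hU hF hi hU subset_rfl
  have h0' : (0 : ℂ) ∉ F '' U := fun ⟨z, hz, e⟩ => h0 z hz e
  obtain ⟨l, hl, hle⟩ := hLOGU (F '' U) hop (hc.image F hF.continuousOn)
    (hIMG.1 U F hU hc hN hF hi) 0 h0'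
  have he : ∀ z ∈ U, cexp (l (F z)) = F z := fun z hz =>
    (hle _ ⟨z, hz, rfl⟩).trans (sub_zero _)
  have hL : DifferentiableOn ℂ (fun z => l (F z)) U :=
    holo_log hU hF h0 (hl.comp hF.continuousOn (mapsTo_image F U)) he
  refine ⟨fun z => cexp (l (F z) / 2), (hL.div_const _).cexp, fun z hz => ?_⟩
  rw [sq, ← exp_add, add_halves, he z hz]

theorem rm1 {U : Set ℂ} {z₀ : ℂ} (hU : IsOpen U) (hne : U ≠ univ) (hL : HSq U) (hz₀ : z₀ ∈ U) :
    ∃ ψ : ℂ → ℂ, DifferentiableOn ℂ ψ U ∧ InjOn ψ U ∧ MapsTo ψ U (ball 0 1) ∧ ψ z₀ = 0 := by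
  obtain ⟨a, ha⟩ := (ne_univ_iff_exists_notMem U).1 hne
  have hna : ∀ z ∈ U, z - a ≠ 0 := fun z hz => sub_ne_zero.2 fun h => ha (h ▸ hz)
  obtain ⟨r, hr, hsq⟩ := hL (fun z => z - a) (by fun_prop)
    (fun x _ y _ e => sub_left_injective e) hna
  have hinj : InjOn r U := fun x hx y hy e => by
    have h1 := hsq x hx
    have h2 := hsq y hy
    rw [e] at h1
    linear_combination h2 - h1
  have hop : IsOpen (r '' U) :=
    Pool.Agent.P.MP_56bcbf_an.isOpen_image hU hr hinj hU subset_rfl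
  obtain ⟨e, he, hb⟩ := Metric.isOpen_iff.1 hop (r z₀) ⟨z₀, hz₀, rfl⟩
  have hfar : ∀ z ∈ U, e ≤ ‖r z + r z₀‖ := by
    intro z hz
    by_contra hc
    have h0 : -r z ∈ ball (r z₀) e := by
      rw [mem_ball, dist_eq_norm, ← norm_neg]
      have : -(-r z - r z₀) = r z + r z₀ := by ring
      rw [this]; exact not_le.1 hc
    obtain ⟨w, hw, hwe⟩ := hb h0
    have h1 := hsq w hw
    have h2 := hsq z hz
    have h3 : w = z := by
      rw [hwe] at h1
      linear_combination h2 - h1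
    subst h3
    have h4 : r w = 0 := by linear_combination hwe / 2
    rw [h4] at h1
    exact hna w hw (by linear_combination -h1)
  have hne0 : ∀ z ∈ U, r z + r z₀ ≠ 0 := fun z hz h => by
    have := hfar z hz
    rw [h, norm_zero] at this; linarith
  have hbd : ∀ z ∈ U, ‖((e / 4 : ℝ) : ℂ) / (r z + r z₀)‖ ≤ 1 / 4 := fun z hz => by
    have := hfar z hz
    rw [norm_div, norm_real, Real.norm_eq_abs, abs_of_pos (by positivity),
      div_le_iff₀ (norm_pos_iff.2 (hne0 z hz))]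
    linarith
  refine ⟨fun z => ((e / 4 : ℝ) : ℂ) / (r z + r z₀) - ((e / 4 : ℝ) : ℂ) / (r z₀ + r z₀),
    ((differentiableOn_const _).div (hr.add_const _) hne0).sub_const _, ?_, ?_, sub_self _⟩
  · intro x hx y hy h
    have h1 : ((e / 4 : ℝ) : ℂ) / (r x + r z₀) = ((e / 4 : ℝ) : ℂ) / (r y + r z₀) :=
      sub_left_injective h
    have he' : ((e / 4 : ℝ) : ℂ) ≠ 0 := ofReal_ne_zero.2 (by positivity)
    rw [div_eq_div_iff (hne0 x hx) (hne0 y hy)] at h1
    have h2 := mul_left_cancel₀ he' h1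
    exact hinj hx hy (by linear_combination -h2)
  · intro z hz
    rw [mem_ball_zero_iff]
    have h1 := hbd z hz
    have h2 := hbd z₀ hz₀
    have := norm_sub_le (((e / 4 : ℝ) : ℂ) / (r z + r z₀)) (((e / 4 : ℝ) : ℂ) / (r z₀ + r z₀))
    linarith

theorem rm2 {U : Set ℂ} {z₀ : ℂ} {ψ : ℂ → ℂ} (hU : IsOpen U) (hL : HSq U) (hz₀ : z₀ ∈ U)
    (hd : DifferentiableOn ℂ ψ U) (hi : InjOn ψ U) (hm : MapsTo ψ U (ball 0 1)) (h0 : ψ z₀ = 0)
    (hns : ¬ SurjOn ψ U (ball 0 1)) :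
    ∃ χ : ℂ → ℂ, DifferentiableOn ℂ χ U ∧ InjOn χ U ∧ MapsTo χ U (ball 0 1) ∧ χ z₀ = 0 ∧
      ‖deriv ψ z₀‖ < ‖deriv χ z₀‖ := by
  have hm' : ∀ z ∈ U, ‖ψ z‖ < 1 := fun z hz => mem_ball_zero_iff.1 (hm hz)
  obtain ⟨w₀, hw₀, hnw⟩ := not_subset.1 hns
  rw [mem_ball_zero_iff] at hw₀
  have hnz : ∀ z ∈ U, rm_m w₀ (ψ z) ≠ 0 := fun z hz =>
    div_ne_zero (sub_ne_zero.2 fun h => hnw ⟨z, hz, h⟩) (rm_den hw₀ (hm' z hz))
  obtain ⟨r, hr, hsq⟩ := hL _ (rm_diff hw₀ hd hm')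
    (fun x hx y hy e => hi hx hy (rm_inj hw₀ (hm' x hx) (hm' y hy) e)) hnz
  have hr1 : ∀ z ∈ U, ‖r z‖ < 1 := fun z hz => by
    have h1 := rm_lt hw₀ (hm' z hz)
    rw [← hsq z hz, norm_pow] at h1
    exact lt_of_pow_lt_pow_left₀ 2 zero_le_one (by simpa using h1)
  have hri : InjOn r U := fun x hx y hy e => by
    apply hi hx hy
    apply rm_inj hw₀ (hm' x hx) (hm' y hy)
    rw [← hsq x hx, ← hsq y hy, e]
  have hb := hr1 z₀ hz₀
  have hb2 : r z₀ ^ 2 = -w₀ := by rw [hsq z₀ hz₀, h0, rm_m]; simp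
  have hb0 : r z₀ ≠ 0 := fun h => hnz z₀ hz₀ (by rw [← hsq z₀ hz₀, h]; simp)
  have hn := hU.mem_nhds hz₀
  have dψ := (hd.differentiableAt hn).hasDerivAt
  have dr := (hr.differentiableAt hn).hasDerivAt
  have d1 := (rm_deriv hw₀ (hm' z₀ hz₀)).comp z₀ dψ
  have d2 : HasDerivAt (fun z => r z ^ 2) (2 * r z₀ * deriv r z₀) z₀ := by
    have := dr.fun_mul dr
    have e : 2 * r z₀ * deriv r z₀ = deriv r z₀ * r z₀ + r z₀ * deriv r z₀ := by ring
    simpa only [sq, e] using this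
  have d3 : HasDerivAt (rm_m w₀ ∘ ψ) (2 * r z₀ * deriv r z₀) z₀ := by
    refine d2.congr_of_eventuallyEq ?_
    filter_upwards [hn] with z hz using (hsq z hz).symm
  have e1 := d1.unique d3
  rw [h0, mul_zero, sub_zero, one_pow, div_one, rm_one] at e1
  have d4 := (rm_deriv hb hb).comp z₀ dr
  refine ⟨fun z => rm_m (r z₀) (r z), rm_diff hb hr hr1, fun x hx y hy e =>
    hri hx hy (rm_inj hb (hr1 x hx) (hr1 y hy) e), fun z hz =>
    mem_ball_zero_iff.2 (rm_lt hb (hr1 z hz)), by simp [rm_m], ?_⟩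
  have e2 : deriv (fun z => rm_m (r z₀) (r z)) z₀ = _ := d4.deriv
  have hp : 0 < ‖deriv ψ z₀‖ :=
    norm_pos_iff.2 (Pool.Agent.P.MP_56bcbf_an.deriv_ne_zero hU hd hi hz₀)
  have hw : ‖w₀‖ = ‖r z₀‖ ^ 2 := by rw [← norm_pow, hb2, norm_neg]
  have hβ : 0 < ‖r z₀‖ := norm_pos_iff.2 hb0
  have hq : 0 < 1 - ‖r z₀‖ ^ 2 := by nlinarith
  have hq' : 0 < 1 - ‖w₀‖ ^ 2 := by nlinarith [norm_nonneg w₀]
  have e3 := congrArg norm e1
  rw [norm_mul, norm_mul, norm_mul, norm_real, Real.norm_eq_abs, abs_of_pos hq', hw] at e3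
  rw [e2, rm_one, norm_mul, norm_div, norm_pow, norm_real, Real.norm_eq_abs, abs_of_pos hq]
  have e4 : ‖(2 : ℂ)‖ = 2 := by simp
  rw [e4] at e3
  set β := ‖r z₀‖
  set A := ‖deriv ψ z₀‖
  set B := ‖deriv r z₀‖
  have e5 : (1 - β ^ 2) / (1 - β ^ 2) ^ 2 * B = A * (1 + β ^ 2) / (2 * β) := by
    have : B = (1 - (β ^ 2) ^ 2) * A / (2 * β) := by
      rw [e3]; field_simp
    rw [this]; field_simp; ring
  rw [e5, lt_div_iff₀ (by positivity)]
  have : 0 < (1 - β) ^ 2 := by have : 0 < 1 - β := by linarith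
                               positivity
  nlinarith [mul_pos hp this]

theorem meas_ind {U : Set ℂ} (hU : IsOpen U) {f : ℂ → ℂ} (hf : ContinuousOn f U) :
    Measurable (U.indicator f) := by
  classical
  have h := hf.measurable_piecewise (g := fun _ => (0 : ℂ)) continuousOn_const hU.measurableSet
  rwa [show U.piecewise f (fun _ => (0 : ℂ)) = U.indicator f from piecewise_eq_indicator] at h

end RmtA

open RmtA Pool.Agent.P.MP_6c8efb_pr.SLE.L in
theorem p_RMT (hLOGU : S_LOGU) (hIMG : S_IMG) :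
    S_RMT := by
  intro U hU hUc hN hne z₀ hz
  have hL := hsq hLOGU hIMG hU hUc hN
  obtain ⟨f, ⟨hd, hi, hm, h0⟩, hmax⟩ := rmt_ext s_Mont s_Hurw hU hUc hz (rm1 hU hne hL hz)
  have hs : SurjOn f U (ball 0 1) := by
    by_contra hns
    obtain ⟨χ, h1, h2, h3, h4, h5⟩ := rm2 hU hL hz hd hi hm h0 hns
    exact absurd (hmax χ ⟨h1, h2, h3, h4⟩) (not_le.2 h5)
  have him : f '' U = ball 0 1 := Subset.antisymm hm.image_subset hs
  obtain ⟨g, hg, hgf⟩ := Pool.Agent.P.MP_56bcbf_an.exists_inverse hU hd hi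
  rw [him] at hg
  have hgm : MapsTo g (ball 0 1) U := fun w hw => by
    obtain ⟨z, hzU, rfl⟩ := hs hw
    rwa [hgf z hzU]
  refine ⟨U.indicator f, (ball (0 : ℂ) 1).indicator g, ⟨hU,
    hd.congr fun z hzU => indicator_of_mem hzU f, meas_ind hU hd.continuousOn,
    meas_ind isOpen_ball hg.continuousOn, fun z hzU => ?_, fun w hw => ?_,
    hg.continuousOn.congr fun w hw => indicator_of_mem hw g, fun z hzU => ?_, fun w hw => ?_⟩, ?_⟩
  · rw [indicator_of_mem hzU]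
    exact hm hzU
  · rw [indicator_of_mem hw]
    exact hgm hw
  · rw [indicator_of_mem hzU, indicator_of_mem (hm hzU), hgf z hzU]
  · rw [indicator_of_mem hw, indicator_of_mem (hgm hw)]
    obtain ⟨z, hzU, rfl⟩ := hs hw
    rw [hgf z hzU]
  · rw [indicator_of_mem hz, h0]

end Pool.Agent.P.MP_d66c6d_pr
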