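import Pool.Agent.P.MP_d66c6d_pr.T.Iface

/-! Step UNI of the carpet project. -/

namespace Pool.Agent.P.MP_d66c6d_pr

open Set Metric Filter Topology

namespace UniA

/-- A function glued from two continuous branches along an open set. -/
theorem glue (A B : Set ℂ) {d : ∀ w, Decidable (w ∈ B)} (hA : IsOpen A) (hB : IsOpen B) (hAB : Disjoint A B)
    (p q : ℂ → ℂ) (hp : Continuous p) (hq : Continuous q) (z : ℂ)
    (hz : z ∈ A ∨ z ∈ B ∨ p z = q z) :
    ContinuousAt (fun w => if w ∈ B then p w else q w) z := by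
  rcases hz with hz | hz | hz
  · refine hq.continuousAt.congr ?_
    filter_upwards [hA.mem_nhds hz] with w hw
    have : w ∉ B := fun h => (Set.disjoint_left.1 hAB) hw h
    simp [this]
  · refine hp.continuousAt.congr ?_
    filter_upwards [hB.mem_nhds hz] with w hw
    simp [hw]
  · have h0 : (if z ∈ B then p z else q z) = q z := by
      split_ifs
      · exact hz
      · rfl
    unfold ContinuousAt
    simp only [h0]
    refine Filter.Tendsto.if' ?_ hq.continuousAt
    rw [← hz]
    exact hp.continuousAt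

end UniA

theorem p_UNI (hLOGA : S_LOGA) :
    S_UNI := by
  classical
  obtain ⟨h1, -, -, h4, -, -⟩ := hLOGA
  intro G H hG hH cG cH hU
  by_contra hn
  unfold IsPreconnected at hn
  push Not at hn
  obtain ⟨U, V, hUo, hVo, hcov, ⟨a, ha, haU⟩, ⟨b, hb, hbV⟩, hemp⟩ := hn
  set A : Set ℂ := (G ∩ H) ∩ U with hAdef
  set B : Set ℂ := (G ∩ H) ∩ V with hBdef
  have hA : IsOpen A := (hG.inter hH).inter hUo
  have hB : IsOpen B := (hG.inter hH).inter hVo
  have hAB : Disjoint A B := by
    rw [Set.disjoint_left]
    intro z hz hz'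
    have : z ∈ G ∩ H ∩ (U ∩ V) := ⟨hz.1, hz.2, hz'.2⟩
    rw [hemp] at this
    exact this
  have hsplit : ∀ z, z ∈ G → z ∈ H → z ∈ A ∨ z ∈ B := by
    intro z hzG hzH
    rcases hcov ⟨hzG, hzH⟩ with h | h
    · exact Or.inl ⟨⟨hzG, hzH⟩, h⟩
    · exact Or.inr ⟨⟨hzG, hzH⟩, h⟩
  have hdis : Disjoint Hᶜ Gᶜ := by
    rw [Set.disjoint_left]
    intro z hz hz'
    have : z ∈ G ∪ H := by rw [hU]; trivial
    rcases this with h | h
    · exact hz' h
    · exact hz h
  obtain ⟨u, hu0, hu1, -⟩ :=
    exists_continuous_zero_one_of_isClosed hH.isClosed_compl hG.isClosed_compl hdis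
  set q : ℂ → ℂ := fun w => (Real.pi : ℂ) * Complex.I * (u w : ℂ) with hqdef
  have hq : Continuous q := by
    rw [hqdef]
    exact continuous_const.mul (Complex.continuous_ofReal.comp u.continuous)
  set lG : ℂ → ℂ := fun w => if w ∈ B then -q w else q w with hlG
  set lH : ℂ → ℂ := fun w => if w ∈ B then 2 * Real.pi * Complex.I - q w else q w with hlH
  have cGat : ∀ z ∈ G, ContinuousAt lG z := by
    intro z hz
    refine UniA.glue A B hA hB hAB (fun w => -q w) q hq.neg hq z ?_
    by_cases hzH : z ∈ H
    · rcases hsplit z hz hzH with h | h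
      · exact Or.inl h
      · exact Or.inr (Or.inl h)
    · right; right
      have : u z = 0 := hu0 hzH
      simp [hqdef, this]
  have cHat : ∀ z ∈ H, ContinuousAt lH z := by
    intro z hz
    refine UniA.glue A B hA hB hAB (fun w => 2 * Real.pi * Complex.I - q w) q
      (continuous_const.sub hq) hq z ?_
    by_cases hzG : z ∈ G
    · rcases hsplit z hzG hz with h | h
      · exact Or.inl h
      · exact Or.inr (Or.inl h)
    · right; right
      have : u z = 1 := hu1 hzG
      simp only [hqdef, this]
      push_cast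
      ring
  have hexp : ∀ w, Complex.exp (lH w) = Complex.exp (lG w) := by
    intro w
    by_cases hw : w ∈ B
    · simp only [hlG, hlH, hw, if_true]
      rw [sub_eq_add_neg, Complex.exp_add, Complex.exp_two_pi_mul_I, one_mul]
    · simp only [hlG, hlH, hw, if_false]
  have hphi : Continuous fun w => Complex.exp (lG w) := by
    rw [continuous_iff_continuousAt]
    intro z
    have : z ∈ G ∪ H := by rw [hU]; trivial
    rcases this with h | h
    · exact (cGat z h).cexp
    · have h2 := (cHat z h).cexp
      simpa only [hexp] using h2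
  obtain ⟨L, hL, hLe⟩ := h1 _ hphi fun z => Complex.exp_ne_zero _
  have e1 := h4 G L lG cG (hL.mono (subset_univ _))
    (fun z hz => (cGat z hz).continuousWithinAt) (fun z _ => hLe z trivial) a ha.1 b hb.1
  have e2 := h4 H L lH cH (hL.mono (subset_univ _))
    (fun z hz => (cHat z hz).continuousWithinAt)
    (fun z _ => by rw [hexp]; exact hLe z trivial) a ha.2 b hb.2
  have haB : a ∉ B := fun h => (Set.disjoint_left.1 hAB) ⟨ha, haU⟩ h
  have hbB : b ∈ B := ⟨hb, hbV⟩
  simp only [hlG, hlH, haB, hbB, if_true, if_false] at e1 e2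
  have h2pi : (2 * Real.pi * Complex.I : ℂ) = 0 := by linear_combination e2 - e1
  exact Complex.two_pi_I_ne_zero h2pi

end Pool.Agent.P.MP_d66c6d_pr
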